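import Pool.Agent.Helper82.CKC.FieldU
import Pool.Agent.Helper71.CK.Point
import Pool.Agent.Helper20.EK7.FieldG
set_option autoImplicit false
open Complex Metric Set
open scoped Real ComplexConjugate

/-!
# Project CKC: the field of the direction `u` for the pointwise inequality

`GC` is the field with one argument; `FldC` the conditions used with a certificate; the
coordinates `w = e₀ + (1 + e₀)(2 x + q')`, `x = conj u (X - α)`, `q' = conj u (Y/X)`.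
-/

namespace Pool.Agent.Helper82.CKC

open Pool.Agent.Helper52.EK
open Pool.Agent.Helper20.EK7 (prj prj_lip prj_of_le norm_prj_le prj_dist_sq InL OutL OutD)
open Pool.Agent.Helper69.EK3 (rF)

/-- the field -/
noncomputable def GC (u gam c a b a' b' : ℂ) (p0 p1 p2 q0 q1 q2 : ℝ) (m : ℂ) : ℂ :=
  BqC gam c a b a' b' p0 p1 p2 q0 q1 q2 (wu u (rR 115 m))

/-- the conditions on a field `G` which enter the pointwise inequality -/
structure FldC (G : ℂ → ℂ) (u gam c a b a' b' : ℂ) (p0 p1 p2 q0 q1 q2 : ℝ) : Prop where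
  gin : ∀ m : ℂ, ‖m‖ ≤ 115 → ‖wu u m‖ ≤ 1 → ∀ e : ℂ, ‖e‖ = 1 →
    ‖G m - e‖ ^ 2 ≤ ‖FqC gam c a b 1 p0 p1 p2 (wu u m) - e‖ ^ 2
  gout : ∀ m : ℂ, ‖m‖ ≤ 115 → 1 < ‖wu u m‖ → ∀ e : ℂ, ‖e‖ = 1 →
    ‖G m - e‖ ^ 2 ≤ ‖FqC gam c a' b' (-1) q0 q1 q2 (wu u m) - e‖ ^ 2

theorem fldC_GC (u gam c a b a' b' : ℂ) (p0 p1 p2 q0 q1 q2 : ℝ) :
    FldC (GC u gam c a b a' b' p0 p1 p2 q0 q1 q2) u gam c a b a' b' p0 p1 p2 q0 q1 q2 := by
  refine ⟨fun m hm h e he => ?_, fun m hm h e he => ?_⟩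
  · unfold GC BqC
    rw [rR_eq (by norm_num) hm, if_pos h]
    exact prj_dist_sq he.le
  · unfold GC BqC
    rw [rR_eq (by norm_num) hm, if_neg (not_le.2 h)]
    exact prj_dist_sq he.le

/-- **the field of the direction `u` is admissible** -/
theorem glip_GC {u : ℂ} (hu : ‖u‖ = 1) (gam c a b a' b' : ℂ) {p0 p1 p2 q0 q1 q2 : ℝ}
    (h : InL p0 p1 p2) (h' : OutD q0 q1 q2) :
    ∃ L : ℝ, GLip (GC u gam c a b a' b' p0 p1 p2 q0 q1 q2) L := by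
  obtain ⟨k, hk, h1⟩ := h.low
  have h3 : OutL (q1 + q2) q0 q1 q2 := ⟨rfl, h'.pos, h'.pos'⟩
  obtain ⟨k', hk', h2⟩ := h3.low
  obtain ⟨L, hL⟩ := glip_BqC gam c a b a' b' hk hk'
    (fun w hw => le_trans (by nlinarith [sq_nonneg ‖w‖]) (h1 w hw))
    (fun w => le_trans (by nlinarith [sq_nonneg ‖w‖]) (h2 w)) (R := 115) (by norm_num) hu
  refine ⟨L, fun m => hL.le_one m 0, fun m m' => hL.lip m m' 0, fun v m hv => ?_⟩
  exact hL.rot v m 0 hv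

/-! ### coordinates -/

theorem one_add_e0_eq (η : ℝ) : 1 + e0 (Real.sin η) (Real.cos η) =
    2 * (Real.sin η : ℂ) * ((Real.sin η : ℂ) + (Real.cos η : ℂ) * I) := by
  have h := Real.sin_sq_add_cos_sq η
  have h' : (Real.cos η : ℂ) ^ 2 = 1 - (Real.sin η : ℂ) ^ 2 := by
    have : (Real.cos η) ^ 2 = 1 - (Real.sin η) ^ 2 := by linarith
    exact_mod_cast this
  unfold e0
  linear_combination (norm := skip) (-1 : ℂ) * h'
  ring_nf
  rw [I_sq]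
  ring

theorem norm_one_add_e0 {η : ℝ} (hη : 0 ≤ Real.sin η) :
    ‖1 + e0 (Real.sin η) (Real.cos η)‖ = 2 * Real.sin η := by
  have h1 : ‖(Real.sin η : ℂ) + (Real.cos η : ℂ) * I‖ = 1 := by
    rw [Complex.norm_add_mul_I, Real.sin_sq_add_cos_sq, Real.sqrt_one]
  rw [one_add_e0_eq, norm_mul, h1, mul_one, norm_mul, Complex.norm_real,
    Real.norm_of_nonneg hη]
  norm_num

/-- the region of the certificate -/
theorem mX_le {X Y : ℂ} {η : ℝ} (hη : η ∈ Icc (0:ℝ) π) (h1 : Real.sin η * ‖X‖ ≤ 9)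
    (h2 : Real.sin η * ‖Y / X‖ ≤ 38) : ‖mX X Y (Real.sin η) (Real.cos η)‖ ≤ 115 := by
  have hs := Real.sin_nonneg_of_mem_Icc hη
  have hs1 := Real.sin_le_one η
  have k1 : ‖2 * X - 1 + Y / X‖ ≤ 2 * ‖X‖ + 1 + ‖Y / X‖ := by
    have a1 := norm_add_le (2 * X - 1) (Y / X)
    have a2 := norm_sub_le (2 * X) 1
    rw [norm_mul, norm_one] at a2
    have a3 : ‖(2:ℂ)‖ = 2 := by norm_num
    rw [a3] at a2
    linarith
  have k2 := norm_sub_le ((1 + e0 (Real.sin η) (Real.cos η)) * (2 * X - 1 + Y / X)) 1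
  rw [norm_mul, norm_one_add_e0 hs, norm_one] at k2
  have k3 := mul_le_mul_of_nonneg_left k1 (mul_nonneg zero_le_two hs)
  unfold mX
  nlinarith

/-- the coordinate `w` -/
theorem wu_mX {u : ℂ} (hu : ‖u‖ = 1) (X Y : ℂ) (s c : ℝ) :
    wu u (mX X Y s c) = e0 s c + (1 + e0 s c) * (2 * (conj u * (X - (1 + u) / 2)) +
      conj u * (Y / X)) := by
  have h : conj u * u = 1 := by
    rw [mul_comm, mul_conj, normSq_eq_norm_sq, hu]
    norm_num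
  unfold wu mX
  linear_combination (1 + e0 s c) * h

/-- **the field against `e₀`**, inside -/
theorem FldC.T_in {G : ℂ → ℂ} {u gam c a b a' b' : ℂ} {p0 p1 p2 q0 q1 q2 : ℝ}
    (h : FldC G u gam c a b a' b' p0 p1 p2 q0 q1 q2) {X Y : ℂ} {η : ℝ} (hη : η ∈ Icc (0:ℝ) π)
    (h1 : Real.sin η * ‖X‖ ≤ 9) (h2 : Real.sin η * ‖Y / X‖ ≤ 38) {w : ℂ}
    (hw : wu u (mX X Y (Real.sin η) (Real.cos η)) = w) (hw1 : ‖w‖ ≤ 1) :
    ‖G (mX X Y (Real.sin η) (Real.cos η)) - e0 (Real.sin η) (Real.cos η)‖ ^ 2 ≤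
      ‖gam * w + c + (((1 - ‖w‖ ^ 2) / rF p0 p1 p2 w : ℝ) : ℂ) * (a * w + b) -
        e0 (Real.sin η) (Real.cos η)‖ ^ 2 := by
  have h3 := h.gin _ (mX_le hη h1 h2) (by rw [hw]; exact hw1) _
    (Pool.Agent.Helper69.EK3.norm_e0 η)
  rw [hw] at h3
  unfold FqC at h3
  rwa [one_mul] at h3

/-- **the field against `e₀`**, outside -/
theorem FldC.T_out {G : ℂ → ℂ} {u gam c a b a' b' : ℂ} {p0 p1 p2 q0 q1 q2 : ℝ}
    (h : FldC G u gam c a b a' b' p0 p1 p2 q0 q1 q2) {X Y : ℂ} {η : ℝ} (hη : η ∈ Icc (0:ℝ) π)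
    (h1 : Real.sin η * ‖X‖ ≤ 9) (h2 : Real.sin η * ‖Y / X‖ ≤ 38) {w : ℂ}
    (hw : wu u (mX X Y (Real.sin η) (Real.cos η)) = w) (hw1 : 1 < ‖w‖) :
    ‖G (mX X Y (Real.sin η) (Real.cos η)) - e0 (Real.sin η) (Real.cos η)‖ ^ 2 ≤
      ‖gam * w + c + (((‖w‖ ^ 2 - 1) / rF q0 q1 q2 w : ℝ) : ℂ) * (a' * w + b') -
        e0 (Real.sin η) (Real.cos η)‖ ^ 2 := by
  have h3 := h.gout _ (mX_le hη h1 h2) (by rw [hw]; exact hw1) _
    (Pool.Agent.Helper69.EK3.norm_e0 η)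
  rw [hw] at h3
  unfold FqC at h3
  have e : -1 * (1 - ‖w‖ ^ 2) = ‖w‖ ^ 2 - 1 := by ring
  rwa [e] at h3

end Pool.Agent.Helper82.CKC
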