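import Pool.Agent.Helper11.CK.MData
set_option autoImplicit false
open Complex Metric Set
open scoped ComplexConjugate

/-!
# Project CKC: fields and multipliers of the direction `u`

`wu u m = conj u (m + 1) - 1`. A function `g` of `w = wu u m`, Lipschitz on discs, gives a field
with `GLip2` after the radial retraction `rR R` (which does not change `m` for `‖m‖ ≤ R`).
-/

namespace Pool.Agent.Helper82.CKC

open Pool.Agent.Helper20.EK7 (prj prj_lip prj_of_le norm_prj_le InL OutL)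
open Pool.Agent.Helper69.EK3 (rF)
open Pool.Agent.Helper69.EK7 (GLip2)
open Pool.Agent.Helper69.CK (MOk)
open Pool.Agent.Helper11.CK (BL bl_l glue mOk_gen)

/-- the coordinate `w` of the direction `u` -/
noncomputable def wu (u m : ℂ) : ℂ := conj u * (m + 1) - 1

/-- radial retraction to the disc of radius `R` -/
noncomputable def rR (R : ℝ) (m : ℂ) : ℂ := (R : ℂ) * prj (m / (R : ℂ))

theorem wu_sub {u : ℂ} (hu : ‖u‖ = 1) (m m' : ℂ) : ‖wu u m - wu u m'‖ = ‖m - m'‖ := by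
  have e : wu u m - wu u m' = conj u * (m - m') := by unfold wu; ring
  rw [e, norm_mul, norm_conj, hu, one_mul]

theorem wu_le {u : ℂ} (hu : ‖u‖ = 1) {m : ℂ} {R : ℝ} (h : ‖m‖ ≤ R) : ‖wu u m‖ ≤ R + 2 := by
  have h1 := norm_sub_le (conj u * (m + 1)) 1
  rw [norm_mul, norm_conj, hu, one_mul, norm_one] at h1
  have h2 := norm_add_le m 1
  rw [norm_one] at h2
  show ‖conj u * (m + 1) - 1‖ ≤ R + 2
  linarith

theorem rR_eq {R : ℝ} (hR : 0 < R) {m : ℂ} (h : ‖m‖ ≤ R) : rR R m = m := by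
  have hR' : (R : ℂ) ≠ 0 := by exact_mod_cast hR.ne'
  unfold rR
  rw [prj_of_le, mul_div_cancel₀ _ hR']
  rw [norm_div, Complex.norm_real, Real.norm_eq_abs, abs_of_pos hR]
  exact (div_le_one hR).2 h

theorem rR_le {R : ℝ} (hR : 0 < R) (m : ℂ) : ‖rR R m‖ ≤ R := by
  unfold rR
  rw [norm_mul, Complex.norm_real, Real.norm_eq_abs, abs_of_pos hR]
  have := mul_le_mul_of_nonneg_left (norm_prj_le (m / R)) hR.le
  rwa [mul_one] at this

theorem rR_lip {R : ℝ} (hR : 0 < R) (m m' : ℂ) : ‖rR R m - rR R m'‖ ≤ 2 * ‖m - m'‖ := by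
  have e : rR R m - rR R m' = R * (prj (m / R) - prj (m' / R)) := by unfold rR; ring
  rw [e, norm_mul, Complex.norm_real, Real.norm_eq_abs, abs_of_pos hR]
  have h1 := prj_lip (m / R) (m' / R)
  have e2 : m / (R : ℂ) - m' / R = (m - m') / R := by ring
  rw [e2, norm_div, Complex.norm_real, Real.norm_eq_abs, abs_of_pos hR] at h1
  calc R * ‖prj (m / R) - prj (m' / R)‖ ≤ R * (2 * (‖m - m'‖ / R)) :=
        mul_le_mul_of_nonneg_left h1 hR.le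
    _ = 2 * ‖m - m'‖ := by field_simp

theorem rR_rot {R : ℝ} {v : ℂ} (hv : ‖v‖ = 1) (m : ℂ) : rR R (v * m) = v * rR R m := by
  unfold rR prj
  have e : v * m / (R : ℂ) = v * (m / R) := by ring
  rw [e, norm_mul, hv, one_mul]
  ring

/-- **a function of `w`, Lipschitz on a disc, gives an admissible field** -/
theorem glip_dir {g : ℂ → ℂ} {R L : ℝ} (hR : 0 < R) (hL : 0 ≤ L) (h1 : ∀ w, ‖g w‖ ≤ 1)
    (h2 : ∀ w w' : ℂ, ‖w‖ ≤ R + 2 → ‖w'‖ ≤ R + 2 → ‖g w - g w'‖ ≤ L * ‖w - w'‖) {u : ℂ}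
    (hu : ‖u‖ = 1) : GLip2 (fun m _ => g (wu u (rR R m))) (L * (2 + R)) := by
  have key : ∀ m m' : ℂ, ‖g (wu u (rR R m)) - g (wu u (rR R m'))‖ ≤
      L * ‖rR R m - rR R m'‖ := fun m m' => by
    have h3 := h2 _ _ (wu_le hu (rR_le hR m)) (wu_le hu (rR_le hR m'))
    rwa [wu_sub hu] at h3
  have lip : ∀ m m' : ℂ, ‖g (wu u (rR R m)) - g (wu u (rR R m'))‖ ≤
      L * (2 + R) * ‖m - m'‖ := fun m m' => by
    refine (key m m').trans ?_
    have h3 := mul_le_mul_of_nonneg_left (rR_lip hR m m') hL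
    have h4 := mul_nonneg (mul_nonneg hL hR.le) (norm_nonneg (m - m'))
    nlinarith
  refine ⟨fun m _ => h1 _, fun m m' _ => lip m m', fun v m _ hv => ?_, ?_⟩
  · refine (key (v * m) m).trans ?_
    rw [rR_rot hv]
    have e : v * rR R m - rR R m = (v - 1) * rR R m := by ring
    rw [e, norm_mul, mul_assoc]
    refine mul_le_mul_of_nonneg_left ?_ hL
    have h3 := mul_le_mul_of_nonneg_left (rR_le hR m) (norm_nonneg (v - 1))
    nlinarith [norm_nonneg (v - 1)]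
  · have hc : LipschitzWith (Real.toNNReal (L * (2 + R))) (fun m => g (wu u (rR R m))) := by
      refine LipschitzWith.of_dist_le_mul fun m m' => ?_
      rw [dist_eq_norm, dist_eq_norm, Real.coe_toNNReal _ (by positivity)]
      exact lip m m'
    exact hc.continuous.comp continuous_fst

/-- the two pieces of a field: `γ w + c + l (a w + b)`, `l = s (1 - |w|²)/ρ(w)` -/
noncomputable def FqC (gam c a b : ℂ) (s p0 p1 p2 : ℝ) (w : ℂ) : ℂ :=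
  gam * w + c + (((s * (1 - ‖w‖ ^ 2)) / rF p0 p1 p2 w : ℝ) : ℂ) * (a * w + b)

theorem bl_FqC {S : Set ℂ} {R : ℝ} (hR : 0 ≤ R) (hS : ∀ w ∈ S, ‖w‖ ≤ R) (gam c a b : ℂ)
    {s p0 p1 p2 k : ℝ} (hk : 0 < k) (hl : ∀ w ∈ S, k ≤ rF p0 p1 p2 w) :
    BL S (FqC gam c a b s p0 p1 p2) :=
  (((BL.const S gam).mul (BL.id hR hS)).add (BL.const S c)).add
    ((bl_l hR hS s hk hl).mul (((BL.const S a).mul (BL.id hR hS)).add (BL.const S b)))

/-- the field as a function of `w` -/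
noncomputable def BqC (gam c a b a' b' : ℂ) (p0 p1 p2 q0 q1 q2 : ℝ) (w : ℂ) : ℂ :=
  prj (if ‖w‖ ≤ 1 then FqC gam c a b 1 p0 p1 p2 w else FqC gam c a' b' (-1) q0 q1 q2 w)

theorem BqC_lip (gam c a b a' b' : ℂ) {p0 p1 p2 q0 q1 q2 k k' : ℝ} (hk : 0 < k) (hk' : 0 < k')
    (hl : ∀ w : ℂ, ‖w‖ ≤ 1 → k ≤ rF p0 p1 p2 w) (hl' : ∀ w : ℂ, k' ≤ rF q0 q1 q2 w) {R : ℝ}
    (hR : 1 ≤ R) : ∃ L : ℝ, 0 ≤ L ∧ ∀ w w' : ℂ, ‖w‖ ≤ R → ‖w'‖ ≤ R →
      ‖BqC gam c a b a' b' p0 p1 p2 q0 q1 q2 w - BqC gam c a b a' b' p0 p1 p2 q0 q1 q2 w'‖ ≤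
        L * ‖w - w'‖ := by
  obtain ⟨L, hL, h⟩ := glue (f := FqC gam c a b 1 p0 p1 p2) (g := FqC gam c a' b' (-1) q0 q1 q2)
    hR (bl_FqC (R := 1) zero_le_one (fun m hm => hm) gam c a b hk fun w hw => hl w hw)
    (bl_FqC (R := R) (zero_le_one.trans hR) (fun m hm => hm) gam c a' b' hk' fun w _ => hl' w)
    (fun w hw => by unfold FqC; rw [hw]; simp)
  refine ⟨2 * L, by positivity, fun w w' hw hw' => ?_⟩
  refine (prj_lip _ _).trans ?_
  have := h w w' hw hw'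
  linarith

/-- **the field of the direction `u` is admissible** -/
theorem glip_BqC (gam c a b a' b' : ℂ) {p0 p1 p2 q0 q1 q2 k k' R : ℝ} (hk : 0 < k) (hk' : 0 < k')
    (hl : ∀ w : ℂ, ‖w‖ ≤ 1 → k ≤ rF p0 p1 p2 w) (hl' : ∀ w : ℂ, k' ≤ rF q0 q1 q2 w)
    (hR : 0 < R) {u : ℂ} (hu : ‖u‖ = 1) : ∃ L : ℝ,
      GLip2 (fun m _ => BqC gam c a b a' b' p0 p1 p2 q0 q1 q2 (wu u (rR R m))) L := by
  obtain ⟨L, hL, h⟩ := BqC_lip gam c a b a' b' hk hk' hl hl' (R := R + 2) (by linarith)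
  exact ⟨_, glip_dir hR hL (fun w => norm_prj_le _) h hu⟩

/-- **multipliers**: a function `F` of `w`, continuous, Lipschitz on `‖w‖ ≤ 10` -/
theorem mOk_dir {F : ℂ → ℂ} (hc : Continuous F) {L : ℝ} (hL : 0 ≤ L)
    (hl : ∀ w w' : ℂ, ‖w‖ ≤ 10 → ‖w'‖ ≤ 10 → ‖F w - F w'‖ ≤ L * ‖w - w'‖) {u : ℂ} (hu : ‖u‖ = 1)
    {b Mb : ℝ} (hb : ∀ m : ℂ, ‖m + 3‖ ≤ 4 → ‖F (wu u m)‖ ≤ b) (hMb : b < Mb) :
    ∃ (M' : ℂ → ℂ) (L' ε : ℝ), 0 < ε ∧ MOk (fun m => F (wu u m)) M' Mb L' ε := by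
  refine mOk_gen (F := fun m => F (wu u m)) ?_ hL (fun m m' hm hm' => ?_) hb hMb
  · refine hc.comp ?_
    unfold wu
    fun_prop
  · have h1 := hl (wu u m) (wu u m') ((wu_le hu hm).trans (by norm_num))
      ((wu_le hu hm').trans (by norm_num))
    rwa [wu_sub hu] at h1

end Pool.Agent.Helper82.CKC
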